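import Pool.Agent.Helper6_BEH.DENa
import Pool.Agent.Helper53_BEL.Fin
import Pool.Agent.Helper70_BE01.All

/-!
# BEH, row DEN: the theorem
-/

namespace Pool.Agent.BEH.H6

open Pool.Agent.BE01 Pool.Agent.BEL

theorem den (mmx : MmxStmt) (egk : EgkStmt) (rep : RepStmt) (sye : SyeStmt) (geo : GeoStmt)
    (upp : UppStmt) (low : LowStmt) (smp : SmpStmt) (stu : StuStmt) (pow : PowStmt) : DenStmt :=
  den_aux BEL.H53.empA BEL.H53.eigA Helper70BE01All.fnl2 mmx egk rep sye geo upp low smp stu pow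

end Pool.Agent.BEH.H6
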