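import Pool.Agent.BEH.Stmts
import Pool.Agent.BEL.StmtsP
import Pool.Agent.Helper70_BE01.Scl

/-!
# BEH, row DEN: the theorem, with the landed facts as hypotheses
-/

namespace Pool.Agent.BEH.H6

open Set Filter Topology MeasureTheory
open scoped InnerProductSpace ENNReal
open Pool.Agent.BE01 Pool.Agent.BEL

noncomputable section

/-- The statement of `Pool.Agent.Helper70BE01All.fnl2`. -/
def Fn2Stmt : Prop := ∀ (d : ℕ) (Ω : Set (En d)) (p K : ℕ) (a l B : ℝ) (φ : Lp ℝ 2 (mu Ω)),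
  (d = 2 ∨ d = 3) → Dom Ω → 1 ≤ p → 0 < a → φ ≠ 0 → IsEig Ω l φ →
  (∀ u, IsEig Ω l u → ∃ c : ℝ, u = c • φ) → (∀ᵐ x ∂(mu Ω), |φ x| ≤ B) →
  (2 * p + 1) * B ^ (2 * p) * ∫ x, φ x ^ 2 ∂(mu Ω) <
    K * (p * cp p * ∫ x, φ x ^ (2 * p + 2) ∂(mu Ω)) →
  (∀ n : ℕ, Odd n → 3 ≤ n → n ≤ 1 + 2 * p * K → ∀ u, IsEig Ω ((n : ℝ) ^ 2 * l) u → u = 0) →
    ∃ (u v w : ℝ → Lp ℝ 2 (mu Ω)) (G : ℝ → Lp (En d) 2 (mu Ω)),
      IsSol Ω a ((2 * p : ℕ) : ℝ) u v w G ∧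
      ∃ c C : ℝ, 0 < c ∧ ∀ t, 0 ≤ t →
        c * (1 + t) ^ (-(2 / ((2 * p : ℕ) : ℝ))) ≤ energy Ω v G t ∧
        energy Ω v G t ≤ C * (1 + t) ^ (-(2 / ((2 * p : ℕ) : ℝ)))

/-- The gap above `n² om_0²` for one `n`. -/
theorem gap1 {om : ℕ → ℝ} (hpos : ∀ k, 0 < om k) (hmono : Monotone om)
    (htop : Tendsto om atTop atTop) (n : ℕ) :
    ∃ ε : ℝ, 0 < ε ∧ ∀ k, om k ^ 2 ≤ (n : ℝ) ^ 2 * om 0 ^ 2 ∨
      (n : ℝ) ^ 2 * (om 0 ^ 2 + 3 * ε) < om k ^ 2 := by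
  classical
  have hex : ∃ k, (n : ℝ) ^ 2 * om 0 ^ 2 < om k ^ 2 := by
    obtain ⟨k, hk⟩ := (htop.eventually_gt_atTop ((n : ℝ) * om 0)).exists
    refine ⟨k, ?_⟩
    have h0 : 0 ≤ (n : ℝ) * om 0 := mul_nonneg (Nat.cast_nonneg n) (hpos 0).le
    rw [← mul_pow]
    exact pow_lt_pow_left₀ hk h0 (by norm_num)
  set k0 := Nat.find hex with hk0
  have h0 : (n : ℝ) ^ 2 * om 0 ^ 2 < om k0 ^ 2 := Nat.find_spec hex
  have hden : (0 : ℝ) < 3 * (n : ℝ) ^ 2 + 1 := by positivity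
  refine ⟨(om k0 ^ 2 - (n : ℝ) ^ 2 * om 0 ^ 2) / (3 * (n : ℝ) ^ 2 + 1),
    div_pos (by linarith) hden, fun k => ?_⟩
  by_cases hk : (n : ℝ) ^ 2 * om 0 ^ 2 < om k ^ 2
  · right
    have hle : k0 ≤ k := Nat.find_min' hex hk
    have h1 : om k0 ^ 2 ≤ om k ^ 2 := pow_le_pow_left₀ (hpos _).le (hmono hle) 2
    refine lt_of_lt_of_le ?_ h1
    set g := om k0 ^ 2 - (n : ℝ) ^ 2 * om 0 ^ 2 with hg
    have hgpos : 0 < g := by rw [hg]; linarith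
    have h2 : 3 * (n : ℝ) ^ 2 * (g / (3 * (n : ℝ) ^ 2 + 1)) < g := by
      rw [mul_div_assoc', div_lt_iff₀ hden]
      nlinarith
    have h3 : (n : ℝ) ^ 2 * (om 0 ^ 2 + 3 * (g / (3 * (n : ℝ) ^ 2 + 1))) =
        (n : ℝ) ^ 2 * om 0 ^ 2 + 3 * (n : ℝ) ^ 2 * (g / (3 * (n : ℝ) ^ 2 + 1)) := by ring
    rw [h3]
    linarith
  · left
    exact not_lt.mp hk

/-- The gap for all `n ≤ M`. -/
theorem gapM {om : ℕ → ℝ} (hpos : ∀ k, 0 < om k) (hmono : Monotone om)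
    (htop : Tendsto om atTop atTop) (M : ℕ) :
    ∃ ε : ℝ, 0 < ε ∧ ∀ n ≤ M, ∀ k, om k ^ 2 ≤ (n : ℝ) ^ 2 * om 0 ^ 2 ∨
      (n : ℝ) ^ 2 * (om 0 ^ 2 + 3 * ε) < om k ^ 2 := by
  have hmon : ∀ (n : ℕ) (ε ε' : ℝ), ε' ≤ ε →
      (∀ k, om k ^ 2 ≤ (n : ℝ) ^ 2 * om 0 ^ 2 ∨ (n : ℝ) ^ 2 * (om 0 ^ 2 + 3 * ε) < om k ^ 2) →
      ∀ k, om k ^ 2 ≤ (n : ℝ) ^ 2 * om 0 ^ 2 ∨
        (n : ℝ) ^ 2 * (om 0 ^ 2 + 3 * ε') < om k ^ 2 := by
    intro n ε ε' h H k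
    rcases H k with h1 | h1
    · exact Or.inl h1
    · right
      refine lt_of_le_of_lt ?_ h1
      have : (0 : ℝ) ≤ (n : ℝ) ^ 2 := by positivity
      nlinarith
  induction M with
  | zero =>
    obtain ⟨ε, hε, h⟩ := gap1 hpos hmono htop 0
    refine ⟨ε, hε, fun n hn => ?_⟩
    have : n = 0 := Nat.le_zero.mp hn
    subst this
    exact h
  | succ M ih =>
    obtain ⟨ε, hε, h⟩ := ih
    obtain ⟨ε', hε', h'⟩ := gap1 hpos hmono htop (M + 1)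
    refine ⟨min ε ε', lt_min hε hε', fun n hn => ?_⟩
    rcases Nat.lt_or_ge M n with h1 | h1
    · have : n = M + 1 := le_antisymm hn h1
      subst this
      exact hmon _ _ _ (min_le_right _ _) h'
    · exact hmon _ _ _ (min_le_left _ _) (h n h1)

theorem den_aux (emp : EmpStmt) (eig : EigStmt) (fnl : Fn2Stmt) (mmx : MmxStmt) (egk : EgkStmt)
    (rep : RepStmt) (sye : SyeStmt) (geo : GeoStmt) (upp : UppStmt) (low : LowStmt)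
    (smp : SmpStmt) (stu : StuStmt) (pow : PowStmt) : DenStmt := by
  intro d Ω p a δ hd hΩ hconn hp ha hδ
  have hd0 : 0 < d := by rcases hd with h | h <;> omega
  have hd2 : 2 ≤ d := by rcases hd with h | h <;> omega
  obtain ⟨ι, hemb, hgrf⟩ := emp d Ω hd0 hΩ
  obtain ⟨b, e, om, hspec⟩ := eig d Ω ι hd0 hΩ hemb
  have hok : Ok Ω ι b e om := ⟨hΩ, hemb, hgrf, hspec⟩
  obtain ⟨C, hC, hstu⟩ := stu d Ω hd hΩ
  have hpos := hspec.pos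
  -- constants
  set V : ℝ := volume.real Ω with hV
  have hV0 : 0 ≤ V := measureReal_nonneg
  set B₁ : ℝ := C * (om 0 ^ 2 + 3) with hB₁
  have hB₁0 : 0 ≤ B₁ := by positivity
  have hp0 : (0 : ℝ) < p := by exact_mod_cast hp
  have hcp := Helper70BE01Scl.cp_pos p
  obtain ⟨K, hK⟩ : ∃ K : ℕ, (2 * p + 1) * B₁ ^ (2 * p) * V ^ p < K * (p * cp p) := by
    obtain ⟨K, hK⟩ := exists_nat_gt ((2 * p + 1) * B₁ ^ (2 * p) * V ^ p / (p * cp p))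
    exact ⟨K, (div_lt_iff₀ (mul_pos hp0 hcp)).mp hK⟩
  set M : ℕ := 1 + 2 * p * K with hM
  obtain ⟨N, hN1, hNom⟩ : ∃ N : ℕ, 0 < N ∧ (10 + (M : ℝ)) * om 0 < om N := by
    have h1 := hspec.top.eventually_gt_atTop ((10 + (M : ℝ)) * om 0)
    obtain ⟨N, hN, hN'⟩ := (h1.and (eventually_gt_atTop 0)).exists
    exact ⟨N, hN', hN⟩
  have hom0 := hpos 0
  have hM0 : (0 : ℝ) ≤ M := Nat.cast_nonneg M
  have hNN : 100 * om 0 ^ 2 ≤ om N ^ 2 := by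
    have h1 : 10 * om 0 ≤ om N := by nlinarith
    nlinarith
  obtain ⟨B, f, hB, hBm, hfb, hf0⟩ := rep d Ω ι b e om hd hok N
  have horth : ∀ i k : Fin N, ∫ y in Ω, f i y * f k y = if i = k then 1 else 0 := by
    intro i k
    have h1 : ∫ y in Ω, f i y * f k y = ⟪b i, b k⟫_ℝ := by
      rw [L2.inner_def]
      refine integral_congr_ae ?_
      filter_upwards [hfb i, hfb k] with y h2 h3
      rw [h2, h3]
      simp only [RCLike.inner_apply, conj_trivial]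
      ring
    rw [h1, orthonormal_iff_ite.mp b.orthonormal]
    by_cases h : i = k
    · rw [if_pos h, if_pos (by rw [h])]
    · rw [if_neg h, if_neg (fun h' => h (Fin.ext h'))]
  obtain ⟨J, x, w, R, D, hR, hD, hJR, hsys⟩ := sye d Ω N B δ f hd hΩ hBm horth hδ
  obtain ⟨κ₀, hκ₀, hupp⟩ := upp d Ω ι b e om N B f J w hok hBm hfb
  obtain ⟨κ₁, ε₁, hκ₁, hε₁, hlow⟩ := low d Ω ι b e om N B f J w D hok hN1 hNN hBm hfb hD
  obtain ⟨ε₀, hε₀, hsys'⟩ := hsys (min κ₀ κ₁) (lt_min hκ₀ hκ₁)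
  obtain ⟨ε₂, hε₂, hgap⟩ := gapM hpos hspec.mono hspec.top M
  -- choice of ε
  set ε : ℝ := min (min (1 / 2) (ε₀ / 2)) (min (ε₁ / 2) ε₂) with hε
  have hε0 : 0 < ε := by
    rw [hε]
    exact lt_min (lt_min (by norm_num) (by linarith)) (lt_min (by linarith) hε₂)
  have e1 : ε ≤ 1 / 2 := (min_le_left _ _).trans (min_le_left _ _)
  have e2 : ε ≤ ε₀ / 2 := (min_le_left _ _).trans (min_le_right _ _)
  have e3 : ε ≤ ε₁ / 2 := (min_le_right _ _).trans (min_le_left _ _)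
  have e4 : ε ≤ ε₂ := (min_le_right _ _).trans (min_le_right _ _)
  obtain ⟨r, η, ψ, g, h, hS⟩ := hsys' ε hε0 (by linarith)
  obtain ⟨hopen, hcon'⟩ := geo d Ω J x R r hd2 hΩ.1 hconn hS.r_pos hS.sub hS.dis
  have hsub : Hl Ω x r ⊆ Ω := fun _ hy => hy.1
  have hΩ' : Dom (Hl Ω x r) := ⟨hopen, hΩ.2.1.subset hsub, hcon'.nonempty⟩
  obtain ⟨ι', hemb', hgrf'⟩ := emp d (Hl Ω x r) hd0 hΩ'
  obtain ⟨b', e', om', hspec'⟩ := eig d (Hl Ω x r) ι' hd0 hΩ' hemb'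
  have hok' : Ok (Hl Ω x r) ι' b' e' om' := ⟨hΩ', hemb', hgrf', hspec'⟩
  have hpos' := hspec'.pos
  have hU : ∀ m, m < N → om' m ^ 2 ≤ om m ^ 2 + 3 * ε :=
    hupp x R D (min κ₀ κ₁) ε r η ψ g h (lt_min hκ₀ hκ₁) (min_le_left _ _) hε0 (by linarith) hS
      ι' b' e' om' hok'
  have hU0 := hU 0 hN1
  have hL : om 0 ^ 2 + 2 / 5 * ε ≤ om' 0 ^ 2 :=
    hlow x R (min κ₀ κ₁) ε r η ψ g h (lt_min hκ₀ hκ₁) (min_le_right _ _) hε0 (by linarith) hS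
      ι' b' e' om' hok' hU0
  have hsimple := smp d (Hl Ω x r) ι' b' e' om' hd hok' hcon'
  obtain ⟨hE1, hE2, hE3⟩ := egk d (Hl Ω x r) ι' b' e' om' hok'
  have hnorm : ‖b' 0‖ = 1 := b'.orthonormal.1 0
  have hφ : b' 0 ≠ 0 := by
    intro h0
    rw [h0, norm_zero] at hnorm
    exact one_ne_zero hnorm.symm
  have hbd : ∀ᵐ y ∂(mu (Hl Ω x r)), |b' 0 y| ≤ B₁ := by
    filter_upwards [hstu (Hl Ω x r) hΩ' hsub _ _ (hE1 0)] with y hy
    refine hy.trans ?_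
    rw [hnorm, mul_one, abs_of_nonneg (sq_nonneg _), hB₁]
    exact mul_le_mul_of_nonneg_left (by linarith) hC.le
  have hVle : volume.real (Hl Ω x r) ≤ V :=
    measureReal_mono hsub hΩ.2.1.measure_lt_top.ne
  have hint2 : ∫ y, b' 0 y ^ 2 ∂(mu (Hl Ω x r)) = 1 := by
    have h1 : ⟪b' 0, b' 0⟫_ℝ = ∫ y, b' 0 y ^ 2 ∂(mu (Hl Ω x r)) := by
      rw [L2.inner_def]
      refine integral_congr_ae (Eventually.of_forall fun y => ?_)
      simp only [real_inner_self_eq_norm_sq, Real.norm_eq_abs, sq_abs]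
    rw [← h1, real_inner_self_eq_norm_sq, hnorm, one_pow]
  have hpw := pow d (Hl Ω x r) p B₁ V (b' 0) hΩ' hbd hnorm hVle
  set I : ℝ := ∫ y, b' 0 y ^ (2 * p + 2) ∂(mu (Hl Ω x r)) with hI
  have hI0 : 0 < I := by
    by_contra hneg
    have : V ^ p * I ≤ 0 := mul_nonpos_of_nonneg_of_nonpos (pow_nonneg hV0 p) (not_lt.mp hneg)
    linarith
  have hcond : (2 * p + 1) * B₁ ^ (2 * p) * ∫ y, b' 0 y ^ 2 ∂(mu (Hl Ω x r)) <
      K * (p * cp p * I) := by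
    rw [hint2, mul_one]
    have h1 : (2 * p + 1) * B₁ ^ (2 * p) ≤ (2 * p + 1) * B₁ ^ (2 * p) * V ^ p * I := by
      have h2 : (0 : ℝ) ≤ (2 * p + 1) * B₁ ^ (2 * p) := by positivity
      calc (2 * p + 1) * B₁ ^ (2 * p) = (2 * p + 1) * B₁ ^ (2 * p) * 1 := by ring
        _ ≤ (2 * p + 1) * B₁ ^ (2 * p) * (V ^ p * I) := mul_le_mul_of_nonneg_left hpw h2
        _ = (2 * p + 1) * B₁ ^ (2 * p) * V ^ p * I := by ring
    have h3 : (2 * p + 1) * B₁ ^ (2 * p) * V ^ p * I < K * (p * cp p) * I :=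
      mul_lt_mul_of_pos_right hK hI0
    calc (2 * p + 1) * B₁ ^ (2 * p) ≤ _ := h1
      _ < K * (p * cp p) * I := h3
      _ = K * (p * cp p * I) := by ring
  have hnonres : ∀ n : ℕ, Odd n → 3 ≤ n → n ≤ 1 + 2 * p * K → ∀ u,
      IsEig (Hl Ω x r) ((n : ℝ) ^ 2 * om' 0 ^ 2) u → u = 0 := by
    intro n _ hn3 hnM u hu
    by_contra hu0
    obtain ⟨k, hk⟩ := hE2 _ u hu hu0
    have hn3' : (3 : ℝ) ≤ n := by exact_mod_cast hn3
    have hnM' : (n : ℝ) ≤ M := by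
      have : n ≤ M := hnM
      exact_mod_cast this
    have hn9 : (9 : ℝ) ≤ (n : ℝ) ^ 2 := by nlinarith
    rcases hgap n hnM k with h1 | h1
    · have hkN : k < N := by
        by_contra hge
        have h2 : om N ≤ om k := hspec.mono (not_lt.mp hge)
        have h3 : (n : ℝ) * om 0 < om k := by nlinarith
        have h4 : ((n : ℝ) * om 0) ^ 2 < om k ^ 2 :=
          pow_lt_pow_left₀ h3 (by positivity) (by norm_num)
        rw [mul_pow] at h4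
        linarith
      have h5 := hU k hkN
      have h6 : (n : ℝ) ^ 2 * (om 0 ^ 2 + 2 / 5 * ε) ≤ (n : ℝ) ^ 2 * om' 0 ^ 2 :=
        mul_le_mul_of_nonneg_left hL (by positivity)
      have h7 : 9 * (2 / 5 * ε) ≤ (n : ℝ) ^ 2 * (2 / 5 * ε) :=
        mul_le_mul_of_nonneg_right hn9 (by positivity)
      nlinarith
    · have h2 : om k ^ 2 ≤ om' k ^ 2 :=
        pow_le_pow_left₀ (hpos k).le (mmx d Ω (Hl Ω x r) ι b e om ι' b' e' om' hok hok' hsub k) 2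
      have h3 : (n : ℝ) ^ 2 * om' 0 ^ 2 ≤ (n : ℝ) ^ 2 * (om 0 ^ 2 + 3 * ε₂) :=
        mul_le_mul_of_nonneg_left (by linarith) (by positivity)
      linarith
  have hfin := fnl d (Hl Ω x r) p K a (om' 0 ^ 2) B₁ (b' 0) hd hΩ' hp ha hφ (hE1 0)
    (hE3 hsimple) hbd hcond hnonres
  refine ⟨J, x, r, fun j => ⟨(hS.r_pos j).1, ?_⟩, fun i j hij => ?_, ?_, hcon', hfin⟩
  · exact (Metric.closedBall_subset_closedBall (hS.r_pos j).2.le).trans (hS.sub j)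
  · exact (hS.dis i j hij).mono (Metric.closedBall_subset_closedBall (hS.r_pos i).2.le)
      (Metric.closedBall_subset_closedBall (hS.r_pos j).2.le)
  · refine lt_of_le_of_lt ?_ hJR
    calc ∑ j, r j ≤ ∑ _j : Fin J, R := Finset.sum_le_sum fun j _ => (hS.r_pos j).2.le
      _ = J * R := by simp

end

end Pool.Agent.BEH.H6
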